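import Pool.Agent.H16.SC.Targets

/-!
Module KCS of block B1 (MP_f2954d_ag): the terms of order `s`.
-/

namespace Pool.Agent.H78.SC

open SCB Filter Topology

/-- the terms of order `s` -/
theorem kcs (hCT : T_CT) (hEX : T_EX) (hSC : T_SC) : T_CS := by
  intro N P ι _ _ _ _ _ n X A hn L e a x x₀ he hle hla hlx h0 s hs
  classical
  have hcardc : ∀ S : Finset ι, Sᶜ.card + S.card = Fintype.card ι := fun S => by
    rw [Finset.card_compl]
    have := Finset.card_le_univ S
    omega
  set F : ℕ → Finset ι → ℝ := fun k S => X.I (x k ::ₘ x₀ ::ₘ (mss Sᶜ L + mss S (a k))) with hF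
  -- the expansion
  have h1 : ∀ k, ∑ S : Finset ι, e k ^ S.card * F k S = 0 := by
    intro k
    have h2 := hEX N P ι n X L (fun i => e k • a k i) (x k ::ₘ x₀ ::ₘ 0) (by
      simp only [Multiset.card_cons, Multiset.card_zero]; omega)
    have h3 : (x k ::ₘ x₀ ::ₘ 0) + ms (fun i => L i + e k • a k i) =
        x k ::ₘ x₀ ::ₘ ms (fun i => L i + e k • a k i) := by
      simp only [Multiset.cons_add, zero_add]
    rw [h3, h0 k] at h2
    rw [h2]
    refine Finset.sum_congr rfl fun S _ => ?_
    have h4 := hSC N P ι n X S (e k) (a k) (x k ::ₘ x₀ ::ₘ mss Sᶜ L) (by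
      simp only [Multiset.card_cons, card_mss]; have := hcardc S; omega)
    have h5 : (x k ::ₘ x₀ ::ₘ 0) + (mss S (fun i => e k • a k i) + mss Sᶜ L) =
        (x k ::ₘ x₀ ::ₘ mss Sᶜ L) + mss S (fun i => e k • a k i) := by
      simp only [Multiset.cons_add, zero_add, add_comm]
    rw [h5, h4, hF]
    simp only [Multiset.cons_add]
  -- the terms of small order vanish
  have h2 : ∀ k S, S.card < s → F k S = 0 := by
    intro k S hS
    have h3 := hs S hS (x k ::ₘ mss S (a k)) (by rw [Multiset.card_cons, card_mss])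
    rw [hF]
    simp only
    rw [Multiset.cons_swap]
    rw [← h3]
    congr 2
    rw [Multiset.cons_add, add_comm]
  set g : ℕ → Finset ι → ℝ := fun k S => if S.card < s then 0 else e k ^ (S.card - s) * F k S
    with hg
  have h3 : ∀ k, ∑ S : Finset ι, g k S = 0 := by
    intro k
    have h4 : e k ^ s * ∑ S : Finset ι, g k S = 0 := by
      rw [Finset.mul_sum, ← h1 k]
      refine Finset.sum_congr rfl fun S _ => ?_
      by_cases hS : S.card < s
      · rw [hg]; simp only [if_pos hS, h2 k S hS, mul_zero]
      · rw [hg]; simp only [if_neg hS]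
        rw [← mul_assoc, ← pow_add]
        congr 2
        omega
    rcases mul_eq_zero.1 h4 with h5 | h5
    · exact absurd h5 (pow_ne_zero _ (he k).ne')
    · exact h5
  -- the limits
  have hlim : ∀ S, Tendsto (fun k => F k S) atTop (𝓝 (X.I (x₀ ::ₘ x₀ ::ₘ ms (rep A S L)))) := by
    intro S
    rw [ms_rep]
    have h5 : MT atTop (fun k => x k ::ₘ x₀ ::ₘ (mss Sᶜ L + mss S (a k)))
        (x₀ ::ₘ x₀ ::ₘ (mss Sᶜ L + mss S (fun _ => A))) :=
      MT.cons hlx (MT.cons tendsto_const_nhds ((MT.const _).add (MT.mss S fun i _ => hla i)))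
    have h6 := hCT N P n X ℕ atTop _ _ h5 (by
      simp only [Multiset.card_cons, Multiset.card_add, card_mss]
      have := hcardc S
      omega)
    have h7 : mss S (fun _ => A) = Multiset.replicate S.card A := by simp [mss]
    rw [h7, add_comm (mss Sᶜ L)] at h6
    exact h6
  have hlg : ∀ S, Tendsto (fun k => g k S) atTop
      (𝓝 (if S.card = s then X.I (x₀ ::ₘ x₀ ::ₘ ms (rep A S L)) else 0)) := by
    intro S
    by_cases hS : S.card < s
    · have h5 : (fun k => g k S) = fun _ => 0 := by funext k; rw [hg]; simp only [if_pos hS]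
      rw [h5, if_neg (by omega)]
      exact tendsto_const_nhds
    · have h5 : (fun k => g k S) = fun k => e k ^ (S.card - s) * F k S := by
        funext k; rw [hg]; simp only [if_neg hS]
      rw [h5]
      by_cases hS' : S.card = s
      · rw [if_pos hS', hS']
        simp only [Nat.sub_self, pow_zero, one_mul]
        exact hlim S
      · rw [if_neg hS']
        have h6 : Tendsto (fun k => e k ^ (S.card - s)) atTop (𝓝 (0 ^ (S.card - s))) :=
          hle.pow _
        rw [zero_pow (by omega)] at h6
        have h7 := h6.mul (hlim S)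
        simpa using h7
  have h4 : Tendsto (fun k => ∑ S : Finset ι, g k S) atTop
      (𝓝 (∑ S : Finset ι, if S.card = s then X.I (x₀ ::ₘ x₀ ::ₘ ms (rep A S L)) else 0)) :=
    tendsto_finsetSum _ fun S _ => hlg S
  have h5 : (fun k => ∑ S : Finset ι, g k S) = fun _ => 0 := by funext k; exact h3 k
  rw [h5] at h4
  have h6 := tendsto_nhds_unique h4 tendsto_const_nhds
  rw [← Finset.sum_filter] at h6
  rw [← h6]
  refine Finset.sum_congr ?_ fun _ _ => rfl
  ext S
  simp [Finset.mem_powersetCard]

end Pool.Agent.H78.SC
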