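import Pool.Agent.H16.SC.Targets

/-!
Modules KAP, KSC, KEX of block B1 (MP_f2954d_ag).
-/

namespace Pool.Agent.H78.SC

open SCB Filter Topology

/-- approximation of nef classes -/
theorem kap : T_AP := by
  intro N P _ _ n X s
  induction s using Multiset.induction_on with
  | empty =>
    intro _
    exact ⟨fun _ => 0, by simp, by simp, MT.nil⟩
  | cons a s ih =>
    intro h
    obtain ⟨σ, h1, h2, h3⟩ := ih fun b hb => h b (Multiset.mem_cons_of_mem hb)
    have ha : a ∈ closure X.G := h a (Multiset.mem_cons_self a s)
    obtain ⟨g, hg, hg'⟩ := mem_closure_iff_seq_limit.1 ha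
    refine ⟨fun k => g k ::ₘ σ k, ?_, ?_, MT.cons hg' h3⟩
    · intro k b hb
      rcases Multiset.mem_cons.1 hb with rfl | hb
      · exact hg k
      · exact h1 k b hb
    · intro k
      simp [h2]

/-- scaling of some factors -/
theorem ksc : T_SC := by
  intro N P ι _ _ _ n X S e a
  induction S using Finset.induction_on with
  | empty =>
    intro W _
    simp [mss_empty]
  | insert i S hi ih =>
    intro W hW
    rw [Finset.card_insert_of_notMem hi] at hW
    rw [mss_insert _ _ hi, mss_insert _ _ hi, Multiset.add_cons, Multiset.add_cons,
      X.I_smul _ _ (by simp only [Multiset.card_add, card_mss]; omega)]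
    have h1 := ih (a i ::ₘ W) (by simp only [Multiset.card_cons]; omega)
    rw [Multiset.cons_add, Multiset.cons_add] at h1
    rw [h1, Finset.card_insert_of_notMem hi]
    ring

/-- expansion of a product of sums, version for a finset -/
lemma ex_aux (N P ι : Type) [AddCommGroup N] [Module ℝ N] [DecidableEq ι]
    (n : ℕ) (X : Geo N P n) (L R : ι → N) (T : Finset ι) : ∀ W : Multiset N, W.card + T.card = n →
    X.I (W + mss T (fun i => L i + R i)) =
      ∑ S ∈ T.powerset, X.I (W + (mss S R + mss (T \ S) L)) := by
  induction T using Finset.induction_on with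
  | empty =>
    intro W _
    simp [mss_empty]
  | insert i T hi ih =>
    intro W hW
    rw [Finset.card_insert_of_notMem hi] at hW
    rw [mss_insert _ _ hi, Multiset.add_cons,
      X.I_add _ _ (by simp only [Multiset.card_add, card_mss]; omega)]
    have h1 := ih (L i ::ₘ W) (by simp only [Multiset.card_cons]; omega)
    have h2 := ih (R i ::ₘ W) (by simp only [Multiset.card_cons]; omega)
    rw [Multiset.cons_add] at h1 h2
    rw [h1, h2, Finset.sum_powerset_insert hi]
    congr 1
    · refine Finset.sum_congr rfl fun S hS => ?_
      have hS' : i ∉ S := fun h => hi (Finset.mem_powerset.1 hS h)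
      rw [Finset.insert_sdiff_of_notMem _ hS', mss_insert _ _ (by simp [hi])]
      simp only [Multiset.cons_add, Multiset.add_cons]
    · refine Finset.sum_congr rfl fun S hS => ?_
      have hS' : i ∉ S := fun h => hi (Finset.mem_powerset.1 hS h)
      have h3 : insert i T \ insert i S = T \ S := by
        ext x
        simp only [Finset.mem_sdiff, Finset.mem_insert]
        constructor
        · rintro ⟨hx | hx, hx'⟩
          · exact absurd (Or.inl hx) hx'
          · exact ⟨hx, fun h => hx' (Or.inr h)⟩
        · rintro ⟨hx, hx'⟩
          refine ⟨Or.inr hx, ?_⟩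
          rintro (h | h)
          · exact hi (h ▸ hx)
          · exact hx' h
      rw [h3, mss_insert _ _ hS']
      simp only [Multiset.cons_add, Multiset.add_cons]

/-- expansion of a product of sums -/
theorem kex : T_EX := by
  intro N P ι _ _ _ _ n X L R W hW
  have h := ex_aux N P ι n X L R Finset.univ W (by simpa using hW)
  rw [ms_eq_mss, h, Finset.powerset_univ]
  refine Finset.sum_congr rfl fun S _ => ?_
  rw [← Finset.compl_eq_univ_sdiff]

end Pool.Agent.H78.SC
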