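import Pool.Agent.H16.SC.Targets

/-!
Module KCT of block B1 (MP_f2954d_ag): continuity of the intersection numbers.
-/

namespace Pool.Agent.H78.SC

open SCB Filter Topology

/-- continuity, with some constant factors -/
lemma ct_aux (N P : Type) [NormedAddCommGroup N] [NormedSpace ℝ N] [FiniteDimensional ℝ N]
    (n : ℕ) (X : Geo N P n) (α : Type) (l : Filter α) (s : α → Multiset N) (s₀ : Multiset N)
    (h : MT l s s₀) : ∀ w : Multiset N, w.card + s₀.card = n →
    Tendsto (fun a => X.I (w + s a)) l (𝓝 (X.I (w + s₀))) := by
  induction h with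
  | nil =>
    intro w _
    exact tendsto_const_nhds
  | @cons x x₀ s s₀ hx hs ih =>
    intro w hw
    rw [Multiset.card_cons] at hw
    let b := Module.finBasis ℝ N
    have key : ∀ (y : N) (t : Multiset N), t.card = s₀.card →
        X.I (w + y ::ₘ t) = ∑ i, b.repr y i * X.I ((b i ::ₘ w) + t) := by
      intro y t ht
      have h1 : X.I (w + y ::ₘ t) = X.I (y ::ₘ (w + t)) := by rw [Multiset.add_cons]
      rw [h1]
      have h2 : y = ∑ i, b.repr y i • b i := (b.sum_repr y).symm
      have hc : (w + t).card + 1 = n := by rw [Multiset.card_add, ht]; omega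
      conv_lhs => rw [h2]
      rw [X.I_sum _ _ hc]
      refine Finset.sum_congr rfl fun i _ => ?_
      rw [X.I_smul _ _ hc, Multiset.cons_add]
    have h1 : (fun a => X.I (w + x a ::ₘ s a)) =
        fun a => ∑ i, b.repr (x a) i * X.I ((b i ::ₘ w) + s a) := by
      funext a
      exact key (x a) (s a) (hs.card_eq a)
    rw [h1, key x₀ s₀ rfl]
    refine tendsto_finsetSum _ fun i _ => ?_
    refine Tendsto.mul ?_ (ih (b i ::ₘ w) (by rw [Multiset.card_cons]; omega))
    have hc : Continuous fun y : N => b.repr y i := by
      have : Continuous (b.coord i) := LinearMap.continuous_of_finiteDimensional _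
      exact this
    exact (hc.tendsto x₀).comp hx

/-- continuity of the intersection numbers -/
theorem kct : T_CT := by
  intro N P _ _ _ n X α l s s₀ h hn
  have h1 := ct_aux N P n X α l s s₀ h 0 (by simpa using hn)
  simpa using h1

end Pool.Agent.H78.SC
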